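import Pool.Agent.Lib.MP_b5021c_nt.IfaceKV

/-!
# MP_b5021c_nt, all `θ`, route V, row KV_KG: the closing A with the ray `S1` (PaperKV.md, section 8)
-/

namespace Pool.Agent.B5.KV39

open scoped LaurentPolynomial
open Polynomial
open Pool.Agent.B5.H40 (uT)
open Pool.Agent.B5.Nr.Sch (Loc)
open Pool.Agent.B5.KE

/-- `1 + c = s ^ 2` with `‖1 - s‖ < 1` for `‖c‖ = 1`, `c ≠ -1`. -/
theorem sq_near {c : ℂ} (hc : ‖c‖ = 1) (hc1 : 1 + c ≠ 0) : ∃ s : ℂ, s * s = 1 + c ∧ ‖1 - s‖ < 1 := by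
  obtain ⟨s, hs, hre⟩ : ∃ s : ℂ, s * s = 1 + c ∧ 0 ≤ s.re := by
    obtain ⟨s, hs⟩ := IsAlgClosed.exists_pow_nat_eq (1 + c) (n := 2) (by norm_num)
    rw [pow_two] at hs
    rcases le_total 0 s.re with h | h
    · exact ⟨s, hs, h⟩
    · exact ⟨-s, by rw [neg_mul_neg, hs], by rw [Complex.neg_re]; linarith⟩
  refine ⟨s, hs, ?_⟩
  have h1 : s.re * s.re - s.im * s.im = 1 + c.re := by
    have := congrArg Complex.re hs
    rw [Complex.mul_re, Complex.add_re, Complex.one_re] at this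
    exact this
  have h2 : s.re * s.im + s.im * s.re = c.im := by
    have := congrArg Complex.im hs
    rw [Complex.mul_im, Complex.add_im, Complex.one_im, zero_add] at this
    exact this
  have h3 : c.re * c.re + c.im * c.im = 1 := by
    have := Complex.normSq_eq_norm_sq c
    rw [hc, Complex.normSq_apply] at this
    linarith
  have hs0 : s ≠ 0 := by
    rintro rfl
    apply hc1
    rw [← hs, mul_zero]
  have hr : 0 < s.re * s.re + s.im * s.im := by
    have := Complex.normSq_pos.mpr hs0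
    rwa [Complex.normSq_apply] at this
  -- `r ^ 2 = 2 (A ^ 2 - B ^ 2)`
  have h4 : (s.re * s.re + s.im * s.im) ^ 2 = 2 * (s.re * s.re - s.im * s.im) := by
    have e1 : (s.re * s.re + s.im * s.im) ^ 2 =
        (s.re * s.re - s.im * s.im) ^ 2 + (s.re * s.im + s.im * s.re) ^ 2 := by ring
    rw [e1, h2]
    rw [h1]
    nlinarith
  have h5 : s.re * s.re + s.im * s.im < 2 * s.re := by
    have h6 : (s.re * s.re + s.im * s.im) ^ 2 < (2 * s.re) ^ 2 := by nlinarith
    exact lt_of_pow_lt_pow_left₀ 2 (by linarith) h6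
  have h7 : ‖1 - s‖ ^ 2 < 1 := by
    rw [← Complex.normSq_eq_norm_sq, Complex.normSq_apply, Complex.sub_re, Complex.sub_im,
      Complex.one_re, Complex.one_im]
    nlinarith
  have h8 := norm_nonneg (1 - s)
  nlinarith

section

variable {P L : Type} [Fintype P] [DecidableEq P] [AddCommGroup L] [Module.Free ℤ L]
  [Module.Finite ℤ L] {phi : L →+ (P → ℤ)} {D : AO ℤ L} {q f : ℤ[X]} {a : ℝ}

/-- `E` has no zero in the closed disc. -/
theorem ez (hMf : MfcS) (hD : DD phi D) (h2 : 2 ≤ Module.finrank ℤ L) {S S1 : L}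
    {e e1 : (RO ℤ)ˣ} (hR : RN D S q f e a) (hu : f.coeff 0 = 1) (hM : Mut D S S1 (ld e 1) e1)
    (hcusp : ∀ z : ℂ, ‖z‖ = 1 → aeval z (q + X * f) ≠ 0) {E : ℤ[X]} (hE : f - q = X * E) :
    ∀ z : ℂ, ‖z‖ ≤ 1 → aeval z E ≠ 0 := by
  intro z hz h0
  rcases lt_or_eq_of_le hz with hz | hz
  · obtain ⟨E', hE', -, -, hz'⟩ := typa hR.loc hu hR.ne
    have : E = E' := by
      have h3 : (X : ℤ[X]) * E = X * E' := by rw [← hE, ← hE']
      exact mul_left_cancel₀ X_ne_zero h3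
    rw [this] at h0
    exact hz' z hz h0
  · have hz0 : z ≠ 0 := by
      rintro rfl
      rw [norm_zero] at hz
      exact zero_ne_one hz
    have hfq : aeval z f = aeval z q := by
      have h3 := congrArg (fun p : ℤ[X] => aeval z p) hE
      simp only [map_sub, map_mul, aeval_X, h0, mul_zero] at h3
      exact sub_eq_zero.mp h3
    by_cases hz1 : 1 + z⁻¹ = 0
    · have hz2 : z = -1 := by
        have h3 : z⁻¹ = -1 := by linear_combination hz1
        rw [← inv_inv z, h3]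
        norm_num
      apply hcusp z hz
      rw [map_add, map_mul, aeval_X, hfq, hz2]
      ring
    · obtain ⟨s, hs, hs1⟩ := sq_near (c := z⁻¹) (by rw [norm_inv, hz, inv_one]) hz1
      obtain ⟨w, hw⟩ := circle_of z hz
      have h3 := hMf ℤ P L phi D S S1 (ld e 1) e1 hD h2 hM w (1 - s) (1 - s) hs1 hs1
      apply h3
      have h4 := ld_S hR 1
      rw [pow_one] at h4
      have h4' : ((ld e 1 : (RO ℤ)ˣ) : RO ℤ) * D.coeff S = toLaurent (X * f) := h4
      rw [hR.D0, h4', evR_poly, evR_poly, hw, map_mul, aeval_X, hfq]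
      have h5 : (1 - s) + (1 - s) - (1 - s) * (1 - s) = -z⁻¹ := by linear_combination -hs
      rw [h5]
      field_simp
      ring

/-- The content of the closing A is a unit. -/
theorem c_unit (hM1 : M1S) (hMV : MVS) {c g : RO ℤ} (hc : ClassV 1 c) {E : ℤ[X]}
    (hE : f - q = X * E) (hz : ∀ z : ℂ, ‖z‖ ≤ 1 → aeval z E ≠ 0)
    (hcg : c * g = toLaurent (q - f)) : IsUnit c := by
  obtain ⟨hc0, hcM⟩ := (hMV ℤ).1 _ _ hc
  refine hM1 ℤ c hc0 hcM ?_
  intro z h0
  have h1 := congrArg (evR z) hcg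
  rw [map_mul, h0, zero_mul, evR_poly] at h1
  have h2 : q - f = -(X * E) := by rw [← hE]; ring
  rw [h2, map_neg, map_mul, aeval_X] at h1
  have h3 : ‖(z : ℂ)‖ = 1 := Circle.norm_coe z
  have h4 := hz z h3.le
  have h5 : (z : ℂ) ≠ 0 := by
    intro h
    rw [h, norm_zero] at h3
    exact zero_ne_one h3
  exact mul_ne_zero h5 h4 (neg_eq_zero.mp h1.symm)

end

/-- (KV_KG) -/
theorem kg (hMf : MfcS) (hRnk : RnkS) (hM1 : M1S) (hMV : MVS) (hRk : RkS) (hMco : McoS)
    (hMug : MugS) : KvkS := by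
  intro P L _ _ _ _ _ phi D q a j F e S S1 H hM hK
  have hcex := H.cex
  have hD := hcex.fp.dd
  have hj := hcex.hj
  have hfr := hcex.fr
  have h2 : 2 ≤ Module.finrank ℤ L := by omega
  have hR := H.rn S hM.r0
  have pk := H.pkg S S1 hM
  obtain ⟨Y⟩ := (hMco ℤ P L phi D S S1 (bl e S) _ hD.inj hD.bin hM).2.2.2
  obtain ⟨c, G, hcV, hcl, hDD, hGV, hRay, hc0, -, hIm, -⟩ := pk.fac Y
  obtain ⟨E, hE, hE0, -, -⟩ := typa hR.loc pk.u hR.ne
  have hEz := ez hMf hD h2 hR pk.u hM pk.cusp hE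
  have hcu := c_unit hM1 hMV hcV hE hEz hc0
  obtain ⟨cu, rfl⟩ := hcu
  have hker := finrank_ker hRk Y.h0
  have hcl' : cl (co phi Y.i0) S Y.h0 (kap * bl e S) D = cst (cu : RO ℤ) * G := by
    rw [bl, kap_ld]
    exact hcl
  have hVne : D.coeff 0 + ((kap * bl e S : (RO ℤ)ˣ) : RO ℤ) * D.coeff S ≠ 0 := by
    rw [bl, kap_ld]
    exact V0_ne_A hR
  obtain ⟨-, -, hco1, -, -, -, -⟩ := hMug ℤ P L phi D S S1 (bl e S) (bl e S1) kap Y.i0 Y.h0 Y.T
    (cu : RO ℤ) G hcex.fp hM.r0 hM.r1 hM.m0 hM.m1 Y.eT kap_ne hVne hcl'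
  have hA : ((bl e S : (RO ℤ)ˣ) : RO ℤ) * D.coeff S = toLaurent (X * F S) := by
    have h1 := ld_S hR 1
    rw [pow_one] at h1
    exact h1
  have hTT : (LaurentPolynomial.T (-1) : RO ℤ) * LaurentPolynomial.T 1 = 1 := by
    rw [← LaurentPolynomial.T_add, neg_add_cancel, LaurentPolynomial.T_zero]
  have htA : ((tA : (RO ℤ)ˣ) : RO ℤ) = -LaurentPolynomial.T (-1) := kap_val
  have htC : ((tC : (RO ℤ)ˣ) : RO ℤ) = LaurentPolynomial.T 1 := by
    unfold tC
    rw [H40.uT_val]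
    simp
  refine ⟨P, Ker (co phi Y.i0), inferInstance, inferInstance, inferInstance, inferInstance,
    inferInstance, phO phi S Y.i0, G, Y.T, bl e S1 * tC, cu * tA, E, ?_⟩
  refine ⟨hDD, hRay, hIm, by omega, hj, hR.loc, pk.u, hcex.win, pk.aj, hE, ?_, hEz, pk.cusp,
    ?_, ?_, ?_, hcex.ih⟩
  · rw [hE0, pk.n]
  · have h1 : q - F S = -(X * E) := by rw [← hE]; ring
    calc ((cu * tA : (RO ℤ)ˣ) : RO ℤ) * G.coeff 0
        = (tA : RO ℤ) * ((cu : RO ℤ) * G.coeff 0) := by rw [Units.val_mul]; ring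
      _ = toLaurent E := by
        rw [hc0, h1, htA, map_neg, map_mul, toLaurent_X]
        linear_combination toLaurent E * hTT
  · calc ((cu * tA : (RO ℤ)ˣ) : RO ℤ) * (((bl e S1 * tC : (RO ℤ)ˣ) : RO ℤ) * G.coeff Y.T)
        = (tA : RO ℤ) * (tC : RO ℤ) *
          (((bl e S1 : (RO ℤ)ˣ) : RO ℤ) * ((cu : RO ℤ) * G.coeff Y.T)) := by
          rw [Units.val_mul, Units.val_mul]
          ring
      _ = -toLaurent ((1 + X) * F S) := by
        rw [hco1, hA, kap_val, htA, htC, map_mul, map_mul, map_add, map_one, toLaurent_X]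
        linear_combination (-(1 + LaurentPolynomial.T 1 +
          LaurentPolynomial.T (-1) * LaurentPolynomial.T 1) * toLaurent (F S)) * hTT
  · intro i1 h1
    have hval : ∀ x : Ker (co phi Y.i0), co (phO phi S Y.i0) i1 x =
        if phi S i1 = 0 then phi (x : L) i1 else 0 := fun x => rfl
    have hS0 : phi S i1 = 0 := by
      by_contra h3
      have h4 := hval Y.T
      rw [if_neg h3, h1] at h4
      exact one_ne_zero h4
    let X0 : Dp phi S S1 := ⟨Y.i0, Y.h0, Y.T, Y.eT, i1, co (phO phi S Y.i0) i1, fun x => by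
      rw [hval, if_pos hS0], h1⟩
    have h3 := (hRnk ℤ P L phi D S S1 (bl e S) (bl e S1) hD.inj hD.bin hM X0 (bl e S * tA)
      (bl e S1 * tC)).2 hK
    have h4 : dc X0 (bl e S * tA) (bl e S1 * tC) D =
        cst (cu : RO ℤ) * cl (co (phO phi S Y.i0) i1) Y.T h1 (bl e S1 * tC) G := by
      have h5 : cl (co phi Y.i0) S Y.h0 (bl e S * tA) D = cst (cu : RO ℤ) * G := by
        rw [mul_comm]
        exact hcl'
      change cl (co (phO phi S Y.i0) i1) Y.T h1 (bl e S1 * tC)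
        (cl (co phi Y.i0) S Y.h0 (bl e S * tA) D) = _
      rw [h5, map_mul, H71.cl_cst]
    rw [h4, H56.supp_cst_mul cu.ne_zero] at h3
    have h6 : rk (supp (cl (co (phO phi S Y.i0) i1) Y.T h1 (bl e S1 * tC) G)) + 2 =
      Module.finrank ℤ L := h3
    omega

end Pool.Agent.B5.KV39
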